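import Pool.Agent.H777R4.DM.Stmts

set_option autoImplicit false

namespace Pool.Agent.H28R3.DM.Low

open Pool.Agent.H777R4.DM

attribute [local instance 100] LieRing.ofAssociativeRing

section basic

variable {α : Type}

theorem wd_eq (l : List α) : (wd l : Al α) = MonoidAlgebra.single (FreeMonoid.ofList l) 1 := rfl

theorem wd_nil : (wd [] : Al α) = 1 := rfl

theorem wd_append (l l' : List α) : (wd (l ++ l') : Al α) = wd l * wd l' := by
  unfold wd
  rw [← map_mul]
  rfl

theorem wd_cons (a : α) (l : List α) : (wd (a :: l) : Al α) = wd [a] * wd l := wd_append [a] l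

theorem co_add (P Q : Al α) (l : List α) : co (P + Q) l = co P l + co Q l := rfl

theorem co_sub (P Q : Al α) (l : List α) : co (P - Q) l = co P l - co Q l := rfl

theorem co_smul (c : ℚ) (P : Al α) (l : List α) : co (c • P) l = c * co P l := rfl

theorem co_ext {P Q : Al α} (h : ∀ l, co P l = co Q l) : P = Q := by
  apply MonoidAlgebra.ext
  ext m
  exact h (FreeMonoid.toList m)

theorem expand (P : Al α) : P = ∑ m ∈ P.coeff.support, P.coeff m • (wd (FreeMonoid.toList m) : Al α) := by
  conv_lhs => rw [← MonoidAlgebra.sum_coeff_single P]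
  rw [Finsupp.sum]
  refine Finset.sum_congr rfl fun m _ => ?_
  rw [wd_eq, FreeMonoid.ofList_toList, MonoidAlgebra.smul_single, smul_eq_mul, mul_one]

theorem lext_wd {V : Type} [AddCommGroup V] [Module ℚ V] (F : List α → V) (l : List α) :
    lext F (wd l) = F l := by
  unfold lext
  rw [wd_eq]
  simp

/-- span of the words with a property -/
noncomputable def S (p : List α → Prop) : Submodule ℚ (Al α) := Submodule.span ℚ {P | ∃ l, p l ∧ P = wd l}

theorem wd_mem {p : List α → Prop} {l : List α} (h : p l) : (wd l : Al α) ∈ S p :=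
  Submodule.subset_span ⟨l, h, rfl⟩

theorem mem_of_co {p : List α → Prop} {P : Al α} (h : ∀ l, co P l ≠ 0 → p l) : P ∈ S p := by
  rw [expand P]
  refine Submodule.sum_mem _ fun m hm => Submodule.smul_mem _ _ (wd_mem ?_)
  apply h
  exact Finsupp.mem_support_iff.1 hm

theorem co_wd [DecidableEq α] (l l' : List α) : co (wd l : Al α) l' = if l = l' then 1 else 0 := by
  classical
  unfold co
  rw [wd_eq, MonoidAlgebra.coeff_single, Finsupp.single_apply]
  exact if_congr Iff.rfl rfl rfl

theorem co_of_mem [DecidableEq α] {p : List α → Prop} {P : Al α} (h : P ∈ S p) (l : List α) (hl : ¬ p l) :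
    co P l = 0 := by
  unfold S at h
  induction h using Submodule.span_induction with
  | mem x hx =>
    obtain ⟨l', hl', rfl⟩ := hx
    rw [co_wd, if_neg]
    rintro rfl
    exact hl hl'
  | zero => rfl
  | add x y _ _ hx hy => rw [co_add, hx, hy, add_zero]
  | smul a x _ hx => rw [co_smul, hx, mul_zero]

theorem S_mono {p q : List α → Prop} (h : ∀ l, p l → q l) : (S p : Submodule ℚ (Al α)) ≤ S q :=
  Submodule.span_mono (by rintro x ⟨l, hl, rfl⟩; exact ⟨l, h l hl, rfl⟩)

/-- length at least `n` -/
noncomputable abbrev G (n : ℕ) : Submodule ℚ (Al α) := S (fun l => n ≤ l.length)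
/-- length `n` -/
noncomputable abbrev H (n : ℕ) : Submodule ℚ (Al α) := S (fun l => l.length = n)

theorem S_mul {p q r : List α → Prop} (h : ∀ l l', p l → q l' → r (l ++ l')) {P Q : Al α}
    (hP : P ∈ S p) (hQ : Q ∈ S q) : P * Q ∈ S r := by
  unfold S at hP
  induction hP using Submodule.span_induction with
  | mem x hx =>
    obtain ⟨l, hl, rfl⟩ := hx
    unfold S at hQ
    induction hQ using Submodule.span_induction with
    | mem y hy =>
      obtain ⟨l', hl', rfl⟩ := hy
      rw [← wd_append]
      exact wd_mem (h l l' hl hl')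
    | zero => rw [mul_zero]; exact Submodule.zero_mem _
    | add y z _ _ hy hz => rw [mul_add]; exact Submodule.add_mem _ hy hz
    | smul a y _ hy => rw [mul_smul_comm]; exact Submodule.smul_mem _ _ hy
  | zero => rw [zero_mul]; exact Submodule.zero_mem _
  | add y z _ _ hy hz => rw [add_mul]; exact Submodule.add_mem _ hy hz
  | smul a y _ hy => rw [smul_mul_assoc]; exact Submodule.smul_mem _ _ hy

end basic

theorem der_wd (f : A) (u : List (Fin 2)) : der f (wd u) = derW f u := lext_wd _ _


/-- `derW f u` for `f` in length at least `n` -/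
theorem derW_G {f : A} {n : ℕ} (hf : f ∈ G n) (u : List (Fin 2)) : derW f u ∈ G (n + u.length) := by
  induction u with
  | nil => exact Submodule.zero_mem _
  | cons i u ih =>
    unfold derW
    have hx : ∀ j : Fin 2, x j ∈ (G 1 : Submodule ℚ A) := fun j => wd_mem (by simp)
    have hm : ∀ {a b : ℕ} {P Q : A}, P ∈ G a → Q ∈ G b → P * Q ∈ G (a + b) := fun h1 h2 =>
      S_mul (fun l l' h h' => by rw [List.length_append]; exact add_le_add h h') h1 h2
    have hu : (wd u : A) ∈ G u.length := wd_mem le_rfl
    refine Submodule.add_mem _ ?_ ?_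
    · have h1 : (if i = 1 then x 1 * f - f * x 1 else 0 : A) ∈ G (n + 1) := by
        split_ifs
        · refine Submodule.sub_mem _ ?_ (hm hf (hx 1))
          have := hm (hx 1) hf
          rwa [add_comm] at this
        · exact Submodule.zero_mem _
      have h2 := hm h1 hu
      have e : n + (i :: u).length = n + 1 + u.length := by simp; ring
      rw [e]; exact h2
    · have h2 := hm (hx i) ih
      have e : n + (i :: u).length = 1 + (n + u.length) := by simp; ring
      rw [e]; exact h2

theorem derW_H {f : A} {n : ℕ} (hf : f ∈ H n) (u : List (Fin 2)) : derW f u ∈ H (n + u.length) := by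
  induction u with
  | nil => exact Submodule.zero_mem _
  | cons i u ih =>
    unfold derW
    have hx : ∀ j : Fin 2, x j ∈ (H 1 : Submodule ℚ A) := fun j => wd_mem (by simp)
    have hm : ∀ {a b : ℕ} {P Q : A}, P ∈ H a → Q ∈ H b → P * Q ∈ H (a + b) := fun h1 h2 =>
      S_mul (fun l l' h h' => by rw [List.length_append, h, h']) h1 h2
    have hu : (wd u : A) ∈ H u.length := wd_mem rfl
    refine Submodule.add_mem _ ?_ ?_
    · have h1 : (if i = 1 then x 1 * f - f * x 1 else 0 : A) ∈ H (n + 1) := by
        split_ifs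
        · refine Submodule.sub_mem _ ?_ (hm hf (hx 1))
          have := hm (hx 1) hf
          rwa [add_comm] at this
        · exact Submodule.zero_mem _
      have h2 := hm h1 hu
      have e : n + (i :: u).length = n + 1 + u.length := by simp; ring
      rw [e]; exact h2
    · have h2 := hm (hx i) ih
      have e : n + (i :: u).length = 1 + (n + u.length) := by simp; ring
      rw [e]; exact h2

theorem der_G {f g : A} {n m : ℕ} (hf : f ∈ G n) (hg : g ∈ G m) : der f g ∈ G (n + m) := by
  unfold G S at hg
  induction hg using Submodule.span_induction with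
  | mem y hy =>
    obtain ⟨l, hl, rfl⟩ := hy
    rw [der_wd]
    exact S_mono (fun l' h => le_trans (by omega) h) (derW_G hf l)
  | zero => rw [map_zero]; exact Submodule.zero_mem _
  | add y z _ _ hy hz => rw [map_add]; exact Submodule.add_mem _ hy hz
  | smul a y _ hy => rw [map_smul]; exact Submodule.smul_mem _ _ hy

theorem der_H {f g : A} {n m : ℕ} (hf : f ∈ H n) (hg : g ∈ H m) : der f g ∈ H (n + m) := by
  unfold H S at hg
  induction hg using Submodule.span_induction with
  | mem y hy =>
    obtain ⟨l, hl, rfl⟩ := hy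
    rw [der_wd, ← hl]
    exact derW_H hf l
  | zero => rw [map_zero]; exact Submodule.zero_mem _
  | add y z _ _ hy hz => rw [map_add]; exact Submodule.add_mem _ hy hz
  | smul a y _ hy => rw [map_smul]; exact Submodule.smul_mem _ _ hy

theorem derW_sub (f f' : A) (u : List (Fin 2)) : derW (f - f') u = derW f u - derW f' u := by
  induction u with
  | nil => simp [derW]
  | cons i u ih =>
    unfold derW
    rw [ih]
    split_ifs
    · noncomm_ring
    · noncomm_ring

theorem der_sub (f f' g : A) : der (f - f') g = der f g - der f' g := by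
  rw [expand g]
  simp only [map_sum, map_smul, der_wd, derW_sub, smul_sub, Finset.sum_sub_distrib]

/-- `Q` is the part of length `n` of `P`, which has no words of smaller length -/
def App (n : ℕ) (P Q : A) : Prop := Q ∈ H n ∧ P - Q ∈ G (n + 1)

theorem App.mem {n : ℕ} {P Q : A} (h : App n P Q) : P ∈ G n := by
  have : P = Q + (P - Q) := by abel
  rw [this]
  exact Submodule.add_mem _ (S_mono (fun l h => h.ge) h.1) (S_mono (fun l h => by omega) h.2)

theorem H_le_G {n : ℕ} : (H n : Submodule ℚ A) ≤ G n := S_mono (fun l h => h.ge)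

theorem G_le {n m : ℕ} (h : n ≤ m) : (G m : Submodule ℚ A) ≤ G n := S_mono (fun l h' => by omega)

theorem app_mul {n m : ℕ} {P Q P' Q' : A} (h : App n P Q) (h' : App m P' Q') :
    App (n + m) (P * P') (Q * Q') := by
  refine ⟨S_mul (fun l l' h h' => by rw [List.length_append, h, h']) h.1 h'.1, ?_⟩
  have e : P * P' - Q * Q' = (P - Q) * P' + Q * (P' - Q') := by noncomm_ring
  rw [e]
  have hm : ∀ {a b : ℕ} {P Q : A}, P ∈ G a → Q ∈ G b → P * Q ∈ G (a + b) := fun h1 h2 =>
      S_mul (fun l l' h h' => by rw [List.length_append]; exact add_le_add h h') h1 h2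
  refine Submodule.add_mem _ (G_le (by omega) (hm h.2 h'.mem)) (G_le (by omega) (hm (H_le_G h.1) h'.2))

theorem app_der {n m : ℕ} {P Q P' Q' : A} (h : App n P Q) (h' : App m P' Q') :
    App (n + m) (der P P') (der Q Q') := by
  refine ⟨der_H h.1 h'.1, ?_⟩
  have e : der P P' - der Q Q' = der (P - Q) P' + der Q (P' - Q') := by
    rw [der_sub, map_sub]; abel
  rw [e]
  refine Submodule.add_mem _ (G_le (by omega) (der_G h.2 h'.mem)) (G_le (by omega) (der_G (H_le_G h.1) h'.2))

theorem app_add {n : ℕ} {P Q P' Q' : A} (h : App n P Q) (h' : App n P' Q') :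
    App n (P + P') (Q + Q') := by
  refine ⟨Submodule.add_mem _ h.1 h'.1, ?_⟩
  have e : P + P' - (Q + Q') = (P - Q) + (P' - Q') := by abel
  rw [e]
  exact Submodule.add_mem _ h.2 h'.2

theorem app_s {n m : ℕ} {P Q P' Q' : A} (h : App n P Q) (h' : App m P' Q') :
    App (n + m) (s P P') (s Q Q') := by
  unfold s
  exact app_add (app_mul h h') (app_der h h')

theorem co_comp (n : ℕ) (P : A) (u : List (Fin 2)) :
    co (comp n P) u = if u.length = n then co P u else 0 := by
  conv_lhs => rw [expand P]
  conv_rhs => rw [expand P]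
  unfold comp
  rw [map_sum]
  have h1 : ∀ (s : Finset (FreeMonoid (Fin 2))) (F : FreeMonoid (Fin 2) → A) (u : List (Fin 2)),
      co (∑ m ∈ s, F m) u = ∑ m ∈ s, co (F m) u := by
    intro s F u
    unfold co
    rw [MonoidAlgebra.coeff_sum, Finsupp.finsetSum_apply]
  rw [h1, h1]
  split_ifs with h
  · refine Finset.sum_congr rfl fun m _ => ?_
    rw [map_smul, lext_wd, co_smul, co_smul]
    congr 1
    split_ifs with h2
    · rfl
    · rw [co_wd, if_neg]
      · rfl
      · rintro rfl; exact h2 h
  · refine Finset.sum_eq_zero fun m _ => ?_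
    rw [map_smul, lext_wd, co_smul]
    split_ifs with h2
    · rw [co_wd, if_neg]
      · ring
      · rintro rfl; exact h h2
    · exact mul_zero _

theorem app_comp {n : ℕ} {P : A} (h : ∀ u, co P u ≠ 0 → n ≤ u.length) : App n P (comp n P) := by
  refine ⟨mem_of_co fun u hu => ?_, mem_of_co fun u hu => ?_⟩
  · rw [co_comp] at hu
    by_contra hne
    rw [if_neg hne] at hu
    exact hu rfl
  · rw [co_sub, co_comp] at hu
    by_cases h1 : u.length = n
    · rw [if_pos h1, sub_self] at hu
      exact absurd rfl hu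
    · rw [if_neg h1, sub_zero] at hu
      have := h u hu
      omega

theorem Phi_wd_nil (f g : A) : Phi f g (wd []) = 1 := by
  unfold Phi
  rw [wd_nil]
  simp

theorem Phi_wd_cons (f g : A) (i : Fin 2) (u : List (Fin 2)) :
    Phi f g (wd (i :: u)) = s (![f, g] i) (Phi f g (wd u)) := by
  unfold Phi
  rw [wd_cons]
  have : (wd [i] : A) = MonoidAlgebra.of ℚ (FreeMonoid (Fin 2)) (FreeMonoid.of i) := rfl
  simp only [LinearMap.comp_apply, AlgHom.toLinearMap_apply, map_mul, LinearMap.applyₗ_apply_apply,
    Module.End.mul_apply]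
  rw [this, MonoidAlgebra.lift_of, FreeMonoid.lift_eval_of]
  fin_cases i <;> rfl

/-- weight -/
def wt (w : Fin 2 → ℕ) (u : List (Fin 2)) : ℕ := (u.map w).sum

theorem app_Phi {f : Fin 2 → A} {w : Fin 2 → ℕ} (hf : ∀ i u, co (f i) u ≠ 0 → w i ≤ u.length)
    (u : List (Fin 2)) : App (wt w u) (Phi (f 0) (f 1) (wd u))
      (Phi (comp (w 0) (f 0)) (comp (w 1) (f 1)) (wd u)) := by
  induction u with
  | nil =>
    rw [Phi_wd_nil, Phi_wd_nil]
    refine ⟨?_, ?_⟩
    · rw [← wd_nil]
      exact wd_mem (by simp [wt])
    · rw [sub_self]; exact Submodule.zero_mem _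
  | cons i u ih =>
    rw [Phi_wd_cons, Phi_wd_cons]
    have e : wt w (i :: u) = w i + wt w u := by simp [wt]
    rw [e]
    refine app_s ?_ ih
    have := app_comp (hf i)
    fin_cases i
    · exact this
    · exact this

theorem low : TaskLow := by
  intro f w hf hinj
  rw [← LinearMap.ker_eq_bot] at hinj ⊢
  rw [LinearMap.ker_eq_bot'] at hinj ⊢
  intro P hP
  by_contra hne
  -- minimal weight
  have hex : ∃ n, ∃ u, co P u ≠ 0 ∧ wt w u = n := by
    by_contra hcon
    push Not at hcon
    apply hne
    apply co_ext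
    intro l
    by_contra hl
    exact hcon _ l hl rfl
  classical
  obtain ⟨n, ⟨u0, hu0, hn0⟩, hmin⟩ : ∃ n, (∃ u, co P u ≠ 0 ∧ wt w u = n) ∧
      ∀ m, m < n → ¬ ∃ u, co P u ≠ 0 ∧ wt w u = m :=
    ⟨Nat.find hex, Nat.find_spec hex, fun m hm => Nat.find_min hex hm⟩
  obtain ⟨Q, hQ⟩ : ∃ Q : A, Q = ∑ m ∈ P.coeff.support,
      if wt w (FreeMonoid.toList m) = n then P.coeff m • (wd (FreeMonoid.toList m) : A) else 0 :=
    ⟨_, rfl⟩
  have happ : App n (Phi (f 0) (f 1) P) (Phi (comp (w 0) (f 0)) (comp (w 1) (f 1)) Q) := by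
    have h1 : Phi (f 0) (f 1) P = ∑ m ∈ P.coeff.support,
        P.coeff m • Phi (f 0) (f 1) (wd (FreeMonoid.toList m)) := by
      conv_lhs => rw [expand P]
      rw [map_sum]
      refine Finset.sum_congr rfl fun m _ => ?_
      rw [map_smul]
    have h2 : Phi (comp (w 0) (f 0)) (comp (w 1) (f 1)) Q = ∑ m ∈ P.coeff.support,
        if wt w (FreeMonoid.toList m) = n then
          P.coeff m • Phi (comp (w 0) (f 0)) (comp (w 1) (f 1)) (wd (FreeMonoid.toList m))
        else 0 := by
      rw [hQ, map_sum]
      refine Finset.sum_congr rfl fun m _ => ?_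
      split_ifs
      · rw [map_smul]
      · rw [map_zero]
    rw [h1, h2]
    refine ⟨Submodule.sum_mem _ fun m hm => ?_, ?_⟩
    · split_ifs with h
      · have := (app_Phi hf (FreeMonoid.toList m)).1
        rw [h] at this
        exact Submodule.smul_mem _ _ this
      · exact Submodule.zero_mem _
    · rw [← Finset.sum_sub_distrib]
      refine Submodule.sum_mem _ fun m hm => ?_
      have hge : n ≤ wt w (FreeMonoid.toList m) := by
        by_contra hlt
        exact hmin _ (not_le.1 hlt) ⟨_, Finsupp.mem_support_iff.1 hm, rfl⟩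
      split_ifs with h
      · rw [← smul_sub]
        have := (app_Phi hf (FreeMonoid.toList m)).2
        rw [h] at this
        exact Submodule.smul_mem _ _ this
      · rw [sub_zero]
        exact Submodule.smul_mem _ _ (G_le (by omega) (app_Phi hf (FreeMonoid.toList m)).mem)
  have hzero : Phi (comp (w 0) (f 0)) (comp (w 1) (f 1)) Q = 0 := by
    obtain ⟨ha, hb⟩ := happ
    rw [hP, zero_sub] at hb
    apply co_ext
    intro l
    by_cases hl : l.length = n
    · have h3 := co_of_mem hb l (by omega)
      have h4 : co (Phi (comp (w 0) (f 0)) (comp (w 1) (f 1)) Q) l =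
          - co (- Phi (comp (w 0) (f 0)) (comp (w 1) (f 1)) Q) l := by
        unfold co
        simp
      rw [h4, h3]
      simp [co]
    · rw [co_of_mem ha l hl]
      rfl
  have hQ0 := hinj Q hzero
  have hc : co Q u0 = co P u0 := by
    rw [hQ]
    unfold co
    rw [MonoidAlgebra.coeff_sum, Finsupp.finsetSum_apply,
      Finset.sum_eq_single (FreeMonoid.ofList u0)]
    · have e : wt w (FreeMonoid.toList (FreeMonoid.ofList u0)) = n := hn0
      rw [if_pos e]
      rw [MonoidAlgebra.coeff_smul, Finsupp.smul_apply, wd_eq, MonoidAlgebra.coeff_single]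
      simp
    · intro m _ hm
      split_ifs
      · rw [MonoidAlgebra.coeff_smul, Finsupp.smul_apply, wd_eq, MonoidAlgebra.coeff_single,
          Finsupp.single_apply, if_neg]
        · simp
        · exact fun h => hm h
      · rfl
    · intro hm
      rw [Finsupp.notMem_support_iff] at hm
      rw [hm]
      split_ifs
      · simp
      · rfl
  rw [hQ0] at hc
  exact hu0 (by rw [← hc]; rfl)

end Pool.Agent.H28R3.DM.Low
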